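import Pool.Agent.H92.CK.Targets
import Pool.Agent.H30.IC.RG1
import Pool.Agent.H86.IC.FFE

/-!
# Pairs of insulating cracks (MP_0ee698_an), module H2W

All second derivatives of weak solutions of the Neumann problem in a half ball are square integrable up to the
flat part: the second normal derivative is expressed by the other ones with the equation.
-/

open MeasureTheory Set Filter Topology Metric
open scoped ENNReal NNReal ContDiff RealInnerProductSpace

namespace Pool.Agent.H35.CK

open Pool.Agent.H92.CK Pool.Agent.H94.IC Pool.Agent.H94.AC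
open Pool.Agent.H30.IC (isOpen_HB HB_mono contDiffOn_pd memLp_gr_iff coeff_bounds memLp_bdd_mul pd_mul)
open Pool.Agent.H86.IC (mul_integrable pd_cont pd_tsupport pd_compact)

/-- second derivatives are symmetric -/
theorem pd_comm {U : Set E} (hU : IsOpen U) {f : E → ℝ} (hf : ContDiffOn ℝ ∞ f U) {x : E} (hx : x ∈ U)
    (k l : Fin 3) : pd k (pd l f) x = pd l (pd k f) x := by
  have h0 : ContDiffAt ℝ ∞ f x := hf.contDiffAt (hU.mem_nhds hx)
  have h1 : ContDiffAt ℝ ∞ (fderiv ℝ f) x := h0.fderiv_right (by norm_num)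
  have h2 : DifferentiableAt ℝ (fderiv ℝ f) x := h1.differentiableAt (by norm_num)
  have h3 : ∀ a b : Fin 3, pd a (pd b f) x = fderiv ℝ (fderiv ℝ f) x (ev a) (ev b) := by
    intro a b
    have h4 : HasFDerivAt (fun y => fderiv ℝ f y (ev b))
        (((ContinuousLinearMap.apply ℝ ℝ (ev b)).comp (fderiv ℝ (fderiv ℝ f) x))) x :=
      (ContinuousLinearMap.apply ℝ ℝ (ev b)).hasFDerivAt.comp x h2.hasFDerivAt
    show fderiv ℝ (fun y => fderiv ℝ f y (ev b)) x (ev a) = _
    rw [h4.fderiv]
    simp
  rw [h3, h3]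
  exact (h0.isSymmSndFDerivAt (by rw [minSmoothness_of_isRCLikeNormedField]; exact WithTop.coe_le_coe.2 le_top)) (ev k) (ev l)

section Eq

variable {A : E → Matrix (Fin 3) (Fin 3) ℝ} {r : ℝ} {w : E → ℝ}

/-- the equation tested with compactly supported smooth functions -/
theorem weak_cpt (H : HalfSol A r w) {φ : E → ℝ} (hφ : ContDiff ℝ ∞ φ) (hc : HasCompactSupport φ)
    (hs : tsupport φ ⊆ HB r) :
    ∫ y in HB r, ∑ i, ∑ j, A y i j * pd i w y * pd j φ y = 0 := by
  obtain ⟨r', hr', hsub⟩ := exists_lt_subset_ball (isClosed_tsupport φ)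
    (show tsupport φ ⊆ ball (0 : E) r from fun y hy => by
      rw [mem_ball_zero_iff]; exact (hs hy).1)
  refine H.weak φ r' hr' hφ.contDiffOn ((hφ.continuous.memLp_of_hasCompactSupport hc).restrict _) ?_ ?_
  · rw [memLp_gr_iff]
    intro i
    exact ((pd_cont hφ i).memLp_of_hasCompactSupport (pd_compact hc i)).restrict _
  · intro y _ hy
    apply image_eq_zero_of_notMem_tsupport
    intro h
    have := hsub h
    rw [mem_ball_zero_iff] at this
    linarith

/-- the flux -/
theorem flux_smooth (H : HalfSol A r w) (i j : Fin 3) :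
    ContDiffOn ℝ ∞ (fun y => A y i j * pd i w y) (HB r) := by
  have hr := H.rpos
  have h1 : HB r ⊆ ball (0 : E) (2 * r) := fun y hy => by
    rw [mem_ball_zero_iff]; have := hy.1; linarith
  exact ((H.sm i j).mono h1).mul (contDiffOn_pd (isOpen_HB r) H.smw i)

/-- the divergence of the flux vanishes almost everywhere -/
theorem div_zero (H : HalfSol A r w) : ∀ᵐ y : E, y ∈ HB r →
    ∑ i, ∑ j, pd j (fun y => A y i j * pd i w y) y = 0 := by
  have hO := isOpen_HB r
  have hF := flux_smooth H
  have hFd : ∀ i j, ContDiffOn ℝ ∞ (pd j (fun y => A y i j * pd i w y)) (HB r) := fun i j =>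
    contDiffOn_pd hO (hF i j) j
  refine hO.ae_eq_zero_of_integral_contDiff_smul_eq_zero ?_ ?_
  · apply ContinuousOn.locallyIntegrableOn _ hO.measurableSet
    exact continuousOn_finsetSum _ fun i _ => continuousOn_finsetSum _ fun j _ => (hFd i j).continuousOn
  · intro φ hφ hc hs
    have hi1 : ∀ i j : Fin 3, Integrable fun x => A x i j * pd i w x * pd j φ x := fun i j =>
      mul_integrable hO (hF i j).continuousOn (pd_cont hφ j) (pd_compact hc j) ((pd_tsupport j).trans hs)
    have hi2 : ∀ i j : Fin 3, Integrable fun x => pd j (fun y => A y i j * pd i w y) x * φ x := fun i j =>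
      mul_integrable hO (hFd i j).continuousOn hφ.continuous hc hs
    have h1 : ∀ i j : Fin 3, ∫ x, A x i j * pd i w x * pd j φ x
        = -∫ x, pd j (fun y => A y i j * pd i w y) x * φ x := by
      intro i j
      apply integral_mul_fderiv_eq_neg_fderiv_mul_of_integrable (hi2 i j) (hi1 i j)
      · exact mul_integrable hO (hF i j).continuousOn hφ.continuous hc hs
      · intro x hx
        exact ((hF i j).contDiffAt (hO.mem_nhds (hs hx))).differentiableAt (by simp)
      · intro x _
        exact (hφ.differentiable (by simp)).differentiableAt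
    have h2 : ∫ x, ∑ i, ∑ j, A x i j * pd i w x * pd j φ x = 0 := by
      rw [← weak_cpt H hφ hc hs]
      symm
      apply setIntegral_eq_integral_of_forall_compl_eq_zero
      intro x hx
      refine Finset.sum_eq_zero fun i _ => Finset.sum_eq_zero fun j _ => ?_
      rw [image_eq_zero_of_notMem_tsupport (f := pd j φ) fun h => hx (hs (pd_tsupport j h)), mul_zero]
    have h3 : (fun x => φ x • ∑ i, ∑ j, pd j (fun y => A y i j * pd i w y) x)
        = fun x => ∑ i, ∑ j, pd j (fun y => A y i j * pd i w y) x * φ x := by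
      ext x
      rw [smul_eq_mul, mul_comm, Finset.sum_mul]
      exact Finset.sum_congr rfl fun i _ => Finset.sum_mul _ _ _
    rw [h3, integral_finsetSum _ fun i _ => integrable_finsetSum _ fun j _ => hi2 i j]
    rw [integral_finsetSum _ fun i _ => integrable_finsetSum _ fun j _ => hi1 i j] at h2
    have h4 : ∀ i : Fin 3, ∫ x, ∑ j, pd j (fun y => A y i j * pd i w y) x * φ x
        = -∫ x, ∑ j, A x i j * pd i w x * pd j φ x := by
      intro i
      rw [integral_finsetSum _ fun j _ => hi2 i j, integral_finsetSum _ fun j _ => hi1 i j,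
        Finset.sum_congr rfl fun j _ => h1 i j, Finset.sum_neg_distrib, neg_neg]
    rw [Finset.sum_congr rfl fun i _ => h4 i, Finset.sum_neg_distrib, h2, neg_zero]

/-- lower bound for the normal coefficient -/
theorem normal_coeff {lam : ℝ}
    (hell : ∀ y ∈ ball (0 : E) (2 * r), ∀ ξ : Fin 3 → ℝ, lam * ∑ i, ξ i ^ 2 ≤ ∑ i, ∑ j, A y i j * ξ i * ξ j)
    {y : E} (hy : y ∈ ball (0 : E) (2 * r)) : lam ≤ A y 2 2 := by
  have h := hell y hy (Pi.single 2 1)
  simpa [Fin.sum_univ_three] using h

/-- bounds for the coefficients and their derivatives -/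
theorem coeff_bd (H : HalfSol A r w) : ∃ C : ℝ, 0 ≤ C ∧ ∀ y, ‖y‖ ≤ r → ∀ i j k : Fin 3,
    |A y i j| ≤ C ∧ |pd k (fun y => A y i j) y| ≤ C := by
  have hr := H.rpos
  have hsub : closedBall (0 : E) r ⊆ ball 0 (2 * r) := closedBall_subset_ball (by linarith)
  have hcomp : IsCompact (closedBall (0 : E) r) := isCompact_closedBall _ _
  have h1 : ∀ i j, ∃ C, ∀ y ∈ closedBall (0 : E) r, ‖A y i j‖ ≤ C := fun i j =>
    hcomp.exists_bound_of_continuousOn ((H.sm i j).continuousOn.mono hsub)
  have h2 : ∀ i j k, ∃ C, ∀ y ∈ closedBall (0 : E) r, ‖pd k (fun y => A y i j) y‖ ≤ C := fun i j k =>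
    hcomp.exists_bound_of_continuousOn ((contDiffOn_pd isOpen_ball (H.sm i j) k).continuousOn.mono hsub)
  choose a ha using h1
  choose b hb using h2
  refine ⟨(∑ i, ∑ j, |a i j|) + ∑ i, ∑ j, ∑ k, |b i j k|, by positivity, fun y hy i j k => ⟨?_, ?_⟩⟩
  · have h3 := ha i j y (by simpa using hy)
    rw [Real.norm_eq_abs] at h3
    have h4 : |a i j| ≤ ∑ i, ∑ j, |a i j| := (Finset.single_le_sum (f := fun j => |a i j|)
      (fun j _ => abs_nonneg _) (Finset.mem_univ j)).trans (Finset.single_le_sum (f := fun i => ∑ j, |a i j|)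
      (fun i _ => Finset.sum_nonneg fun j _ => abs_nonneg _) (Finset.mem_univ i))
    have h5 : 0 ≤ ∑ i, ∑ j, ∑ k, |b i j k| := by positivity
    linarith [le_abs_self (a i j)]
  · have h3 := hb i j k y (by simpa using hy)
    rw [Real.norm_eq_abs] at h3
    have h4 : |b i j k| ≤ ∑ i, ∑ j, ∑ k, |b i j k| := by
      refine (Finset.single_le_sum (f := fun k => |b i j k|) (fun k _ => abs_nonneg _) (Finset.mem_univ k)).trans ?_
      refine (Finset.single_le_sum (f := fun j => ∑ k, |b i j k|)
        (fun j _ => Finset.sum_nonneg fun k _ => abs_nonneg _) (Finset.mem_univ j)).trans ?_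
      exact Finset.single_le_sum (f := fun i => ∑ j, ∑ k, |b i j k|)
        (fun i _ => Finset.sum_nonneg fun j _ => Finset.sum_nonneg fun k _ => abs_nonneg _) (Finset.mem_univ i)
    have h5 : 0 ≤ ∑ i, ∑ j, |a i j| := by positivity
    linarith [le_abs_self (b i j k)]

end Eq

theorem pf_H2W (hRG1 : T_RG1) : T_H2W := by
  intro A r w H k l
  have hr := H.rpos
  have hO := isOpen_HB r
  have hSr : HB (3 * r / 4) ⊆ HB r := HB_mono (by linarith)
  have hS : MeasurableSet (HB (3 * r / 4)) := (isOpen_HB _).measurableSet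
  have hk : ∀ k l : Fin 3, ¬ (k = 2 ∧ l = 2) → MemLp (pd k (pd l w)) 2 (volume.restrict (HB (3 * r / 4))) := by
    intro k l hkl
    by_cases h : k = 2
    · have hl : l ≠ 2 := fun hl => hkl ⟨h, hl⟩
      refine (hRG1 A r w H l k hl).ae_eq (ae_restrict_of_forall_mem hS fun y hy => ?_)
      exact pd_comm hO H.smw (hSr hy) l k
    · exact hRG1 A r w H k l h
  by_cases hkl : k = 2 ∧ l = 2
  swap
  · exact hk k l hkl
  obtain ⟨rfl, rfl⟩ := hkl
  obtain ⟨lam, hlam, hell⟩ := H.ell
  obtain ⟨C, hC0, hC⟩ := coeff_bd H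
  have hsub : HB (3 * r / 4) ⊆ ball (0 : E) (2 * r) := fun y hy => by
    rw [mem_ball_zero_iff]; have := (hSr hy).1; linarith
  have hb : ∀ y ∈ HB (3 * r / 4), ‖y‖ ≤ r := fun y hy => (hSr hy).1.le
  have hp : ∀ i, MemLp (pd i w) 2 (volume.restrict (HB (3 * r / 4))) := fun i =>
    ((memLp_gr_iff w).1 H.g2 i).mono_measure (Measure.restrict_mono hSr le_rfl)
  -- the other terms
  set G : E → ℝ := fun y => (∑ i : Fin 3, ∑ j : Fin 3, pd j (fun y => A y i j) y * pd i w y)
    + ∑ i : Fin 3, ∑ j : Fin 3, if j = 2 ∧ i = 2 then 0 else A y i j * pd j (pd i w) y with hG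
  have hGm : MemLp G 2 (volume.restrict (HB (3 * r / 4))) := by
    refine MemLp.add (memLp_finsetSum _ fun i _ => memLp_finsetSum _ fun j _ => ?_)
      (memLp_finsetSum _ fun i _ => memLp_finsetSum _ fun j _ => ?_)
    · exact memLp_bdd_mul hS ((contDiffOn_pd isOpen_ball (H.sm i j) j).continuousOn.mono hsub) C
        (fun y hy => (hC y (hb y hy) i j j).2) (hp i)
    · by_cases h : j = 2 ∧ i = 2
      · simp only [h, and_self, if_true]
        exact MemLp.zero
      · simp only [h, if_false]
        exact memLp_bdd_mul hS ((H.sm i j).continuousOn.mono hsub) C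
          (fun y hy => (hC y (hb y hy) i j j).1) (hk j i h)
  have hmeas : AEStronglyMeasurable (pd 2 (pd 2 w)) (volume.restrict (HB (3 * r / 4))) :=
    ((contDiffOn_pd hO (contDiffOn_pd hO H.smw 2) 2).continuousOn.mono hSr).aestronglyMeasurable hS
  refine hGm.of_le_mul (c := lam⁻¹) hmeas ?_
  rw [ae_restrict_iff' hS]
  filter_upwards [div_zero H] with y hy hyS
  have h0 := hy (hSr hyS)
  have hw : ∀ i, DifferentiableAt ℝ (pd i w) y := fun i =>
    ((contDiffOn_pd hO H.smw i).contDiffAt (hO.mem_nhds (hSr hyS))).differentiableAt (by simp)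
  have hA : ∀ i j, DifferentiableAt ℝ (fun y => A y i j) y := fun i j =>
    ((H.sm i j).contDiffAt (isOpen_ball.mem_nhds (hsub hyS))).differentiableAt (by simp)
  have h1 : ∀ i j : Fin 3, pd j (fun y => A y i j * pd i w y) y
      = A y i j * pd j (pd i w) y + pd i w y * pd j (fun y => A y i j) y := fun i j =>
    pd_mul (hA i j) (hw i) j
  have h2 : A y 2 2 * pd 2 (pd 2 w) y = - G y := by
    simp only [h1] at h0
    simp only [hG, Fin.sum_univ_three] at h0 ⊢
    have e0 : ¬ (0 : Fin 3) = 2 := by decide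
    have e1 : ¬ (1 : Fin 3) = 2 := by decide
    simp only [e0, e1, and_false, false_and, and_self, if_true, if_false]
    linarith
  have h3 := normal_coeff hell (hsub hyS)
  have h4 : 0 < A y 2 2 := hlam.trans_le h3
  have h5 : A y 2 2 * |pd 2 (pd 2 w) y| = |G y| := by
    rw [← abs_neg (G y), ← h2, abs_mul, abs_of_pos h4]
  rw [Real.norm_eq_abs, Real.norm_eq_abs, inv_mul_eq_div, le_div_iff₀ hlam, mul_comm, ← h5]
  exact mul_le_mul_of_nonneg_right h3 (abs_nonneg _)

end Pool.Agent.H35.CK
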